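import Pool.Agent.U143.AR.Main

/-!
# Tate's conjecture on the pole in towers of alternating extensions

`X` is a smooth projective variety over a number field `K`, for example over `K = ℚ`, and `V = A^m(X) ⊗ ℚ`
the space of the classes of the algebraic cycles of codimension `m` defined over the algebraic closure.
For every number field `L ⊇ K` the variety `X_L`, seen as a variety over `ℚ`, is smooth and projective,
with the `L`-function `L(H^{2m}(X_L), s)`, an Euler product over the primes of `L`, and
`rank B^m(X_L) = dim V^{Gal(K̄/L)}`.  The defect over `L` is `ord_{s=m+1} L(H^{2m}(X_L), s) + rank B^m(X_L)`;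
Tate's conjecture for `X_L` says that it is `0`.
The definitions are in `Pool.Agent.U143.AR.Defs`, `Pool.Agent.TH526.DS.CamDefs`,
`Pool.Agent.W353.AT.TDefs`, `Pool.Agent.W353.AT.Defs`, `Pool.Agent.W353.TD.Defs`,
`Pool.Agent.W353.EH.Defs` and `Pool.Agent.W353.EF.Defs`.
-/

set_option autoImplicit false

namespace Pool.Agent.Results.MP_058a58_ag.AlternatingTowers

open NumberField Pool.Agent.W353.TD

/-- **Tate's conjecture on the pole in towers of alternating extensions.**  For every `s` there is a number
`m₀` with the following property.  Let `X` be a projective variety of dimension `d` over a number field `K`,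
`0 ≤ m ≤ d`, `N` the `2m`-th Betti number, `V` a part of `H^{2m}(X)(m)`, for instance `V = A^m(X) ⊗ ℚ`, with
`N - dim V ≤ s`.  Let `M ⊆ F` be finite Galois extensions of `K` and `M = E_t ⊆ … ⊆ E_0 = F` a chain of Galois
extensions of `K` such that every `Gal(E_i/E_{i+1})` is an alternating group of degree at least `m₀`.
Suppose that the `L`-functions `L(H^{2m}(X) ⊗ χ, s)`, for the irreducible representations `χ` of `Gal(F/K)`
that are not trivial on `Gal(F/M)`, have integral orders at `m + 1`.  Then:
* all these orders are the ones predicted by Tate's conjecture;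
* for every field `L` between `K` and `F` (Galois over `K` or not) the defects over `L` and over `L ∩ M`
  are equal: Tate's conjecture on the pole for `X_L` is equivalent to the one for `X_{L ∩ M}`. -/
theorem result (s : ℕ) : ∃ m₀ : ℕ, ∀ (K : Type) [Field K] [NumberField K] (n : ℕ)
    (X : Set (MvPolynomial (Fin n) (𝓞 K))) (d m N : ℕ) (V : Type) [AddCommGroup V] [Module ℚ V]
    [FiniteDimensional ℚ V] (ρ : Representation ℚ Gal(AlgebraicClosure K/K) V), m ≤ d →
    IsPart X d m N ρ → N - Module.finrank ℚ V ≤ s →
    Pool.Agent.U143.AR.DefectRigidity X d m N m₀ ρ :=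
  Pool.Agent.U143.AR.defectRigidity s

end Pool.Agent.Results.MP_058a58_ag.AlternatingTowers
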