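import Pool.Agent.U434.SS.Poles

/-!
# The poles of the L-functions of the hyperkähler varieties with complex multiplication

Let `X` be a projective hyperkähler variety over the rational numbers, of any deformation type (known
or not), with a smooth model over `ℤ[1/N]`. Suppose that `X` has complex multiplication, in the
`ℓ`-adic form: the action of the Galois group on `H²(X)` is abelian over some number field (for
example, the Picard number of `X` over the algebraic closure is at least `b₂ - 2`). Let `m ≤ dim X`.

**Theorem.** The L-function `L(X, s)` of `H^(2m)(X)` has at `s = m + 1` a pole of order exactly the dimension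
of the space of the Tate classes of codimension `m`, that is, of the invariants of the Galois group of
`ℚ` in `H^(2m)(X, ℚ_ℓ)(m)`, for every prime `ℓ`. So `ord_(s = m + 1) L(X, s) ≤ - rank B^m(X)`, and **the
question for `X` and `m` is equivalent to the Tate conjecture for `X` in codimension `m`** (over `ℚ`). For
`m ≤ 1` and `m ≥ dim X - 1` the answer to the question is affirmative.

For `m ≥ 2` this was known only for the four known deformation types, as then `X` is the
realization of an abelian motive with complex multiplication; for other types it was not even known
that `L(X, s)` has an order at `s = m + 1`.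

Idea of the proof. By `MP_c184fc_ag.HyperkaehlerSemisimple` the representation on `H^(2m)(X)` is
semisimple. By `U434.SS` (`abelian_all`, see `MP_7193be_nt.CMHyperkaehler` for the continuation and the
functional equation) it is potentially abelian: let `L` be the Lie algebra of endomorphisms of `H²`
generated by the Lie algebras of the Frobenius tori, and `C` the commutant of its image in
`End(H^(2m))` under the action of `so(H²)`. An open subgroup `U` of the Galois group commutes with `C`, as
the Frobenius elements act on `C` with eigenvalues which are roots of unity of bounded order, and as
`H¹_g(k, ℚ_ℓ) = 0`. If `U₀` acts on `H²` by commuting operators then `L` commutes with `U₀`, so that `U₀`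
acts on `H^(2m)` by elements of `C`. Then one uses the theorem of Hecke on the poles of the L-functions
of Hecke characters, by the theorem of Brauer (`PoleData.hecke`), and the theorem of André on
divisors.
-/

set_option autoImplicit false

namespace Pool.Agent.Results.MP_058a58_ag.CMHyperkaehlerPoles

open Module
open Pool.Agent.U434.SS Pool.Agent.U434.PA

/-- **The poles for hyperkähler varieties with complex multiplication.** Let `X` be a projective
hyperkähler variety over the rational numbers, of any deformation type, such that the (semisimple)
representation on `H²(X)` is potentially abelian. For all `m ≤ dim X` the order of `L(X, s)` at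
`s = m + 1` is minus the dimension of the space of the Tate classes; so the question for `X` and `m` is
equivalent to the Tate conjecture; and the answer is yes for `m ≤ 1` and `m ≥ dim X - 1`. -/
theorem result {Ω : Type} [Field Ω] [CharZero Ω] [IsAlgClosed Ω] [TopologicalSpace Ω]
    [IsTopologicalRing Ω] [T2Space Ω] (X : HKFamily Ω) (hX : Arithmetic X) (h2 : Semisimple X 2)
    (hCM : PotentiallyAbelian X 2) {N : ℕ} (W : PoleData X N) (m : ℕ) (hm : 2 * m ≤ X.d) :
    W.HasPole m (W.tateRank m) ∧ W.rankB m ≤ W.tateRank m ∧
    -- the question for `X` and `m`
    (W.HasPole m (W.rankB m) ↔ W.TateConjecture m) ∧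
    (m ≤ 1 ∨ X.d ≤ 2 * m + 2 → W.HasPole m (W.rankB m)) := by
  have h : W.HasPole m (W.tateRank m) :=
    W.hecke m hm (semisimple hX h2 hm) (abelian_all hX hCM hm)
  refine ⟨h, Submodule.finrank_mono (W.alg_le m), question_iff W h, fun h1 =>
    (question_iff W h).2 ?_⟩
  rcases h1 with h1 | h1
  · exact W.one m h1
  · exact W.dual m hm h1

end Pool.Agent.Results.MP_058a58_ag.CMHyperkaehlerPoles
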