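import Pool.Agent.U723.FJHodge
import Pool.Agent.N214.HB.Gauss
import Pool.Agent.U270.FT14.Final8
import Pool.Agent.U270.FT14.FinalP

/-!
# Tate's conjecture on poles for Fermat varieties over `ℚ`: most degrees; dimension at most twelve for
all odd degrees; dimension at most six for all degrees not divisible by 420, at most four for all degrees

Let `X` be the Fermat variety `x_0 ^ m + ... + x_(n+1) ^ m = 0` of even dimension `n = 2 c - 2` over
`ℚ` (or a diagonal hypersurface of degree `m`). Outside the middle degree the cohomology of even degree
is spanned by the powers of the class of a hyperplane section. In the middle degree it is the sum of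
the line of the power of this class and of lines `V(s)` (defined over the `m`-th cyclotomic field), `s`
running through the tuples of `n + 2` nonzero residues modulo `m` with sum zero, which are permuted by
the Galois group. By Weil the Frobenius at a prime ideal of degree one above `p`, for a prime number
`p` congruent to 1 modulo `m`, acts on `V(s)` by the product of the Gauss sums over the field with `p`
elements of the characters `θ ^ a`, `a ∈ s`, divided by `p`, up to a root of unity; these are the
values of a Hecke character. The `L`-function of `H^n(X)` is a product of `L`-functions of such Hecke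
characters, which extend to the plane and have no zero on the edge of the half plane of convergence.
So the order of its pole at `s = n / 2 + 1` is the number of the lines, up to conjugation, whose Hecke
character is trivial up to the Tate twist, plus one. On such a line, and on its conjugates, a power of
every Frobenius acts as a power of `p`. Hence Tate's equation (order of the pole equals the rank of
the group of cycles modulo homological equivalence) holds for `X` if and only if these lines are
algebraic.

The theorem: suppose
* that every prime factor `r` of `m` congruent to 1 modulo 4 *sees only squares*, i.e. the other odd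
  prime factors of `m`, and 2 if `4 ∣ m`, are squares modulo `r` (for instance there is no such `r` at
  all); or that `m` has at most three odd prime factors, at most two if `4 ∣ m`, and every prime factor
  congruent to 1 modulo 4 sees only squares or is 5, 13 or 17; for instance let `m ≤ 147` be different
  from 87, 116 and 123 (879 of the first thousand degrees are covered), and let `n` be arbitrary; or
* that `m` is ANY odd number and `n` is at most twelve; or
* that `m` is ANY number not divisible by 420 and `n` is at most six; or
* that `m` is ANY number and `n` is at most four.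
Then there is one positive `l` such that for every single prime number `p` congruent to 1 modulo `m` and
for every `s` with `n + 2` entries such that a power of the Frobenius at `p` acts on `V(s)` as a power of
`p`, the character `l s` is generated in degree `l m` (this corresponds to the pull back under the map
`x_i ↦ x_i ^ l`) by characters whose lines are algebraic:
* the pairs `{a, -a}`, and unions (Shioda, Katsura); removing a pair; the standard characters (Aoki,
  Shioda);
* the Hodge characters with four entries (Lefschetz), and the Hodge characters `b ∪ b'` for which each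
  of `b`, `b'` has three entries or has five entries and empty Fine interior (`CurveProduct`; see
  `MP_e12fcd_ag.FermatFourfolds`);
* the modular characters: see `MP_802513_ag.FermatFactorsOdd` for the reason why their lines are
  algebraic (Deligne's computation of the determinant of the cohomology of a sheaf of rank one on a
  modular curve, which identifies them with determinants of parts of Jacobians of modular curves).
PUBLISHED GENERATORS ONLY: if `m` is odd and `n` is at most six, or if `m` is odd, `n` is at most twelve
and none of 55, 65, 69 and 3003 = 3·7·11·13 divides `m` (95 percent of all odd numbers), then `2 s` is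
generated in degree `2 m` without the modular characters, so that only published theorems on the
algebraicity of lines are used.
So Tate's equation holds for the Fermat varieties over `ℚ` of all dimensions of the degrees of the first
item, for those of dimension at most twelve of ALL odd degrees, for those of dimension at most six of ALL
degrees not divisible by 420 and for ALL Fermat fourfolds; similarly over all number fields, and (for the
degrees of the first item) for their products and for the abelian varieties with all simple factors in
the Jacobians of Fermat curves. (The geometric facts just described are not formalised.)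

The combinatorial theorem on all Hodge characters of the degrees of the first item is
`Pool.Agent.N993.mainT` of the starting library; the new one on the Hodge characters of arbitrary degree
with at most six entries, of degree not divisible by 420 with at most eight entries, and of arbitrary
odd degree with at most fourteen entries, is `Pool.Agent.U270.FT14.main_all8` (its proof is described in
`MP_e12fcd_ag.FermatOddDegreeDimTwelve`, also for the version `main_published` without modular
characters); that products of Gauss sums have the weights given by
Stickelberger's theorem is `Pool.Agent.N214.HB.isTate_of_gauss`. This file replaces `FermatPoles` (the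
first item) of helper723.
-/

namespace Pool.Agent.Results.MP_058a58_ag.FermatPolesOdd

open Pool.Agent.H916R2 Pool.Agent.N992 Pool.Agent.N993 Pool.Agent.U723.FJ Pool.Agent.Y2.Cv

theorem result (m : ℕ) [NeZero m] :
    (∃ l : ℕ, ∃ _ : NeZero (l * m), ∀ (p : ℕ) [Fact p.Prime], m ∣ p - 1 →
      ∀ (θ : MulChar (ZMod p) ℂ), orderOf θ = m → ∀ (ψ : AddChar (ZMod p) ℂ), ψ ≠ 1 →
      ∀ (s : Multiset (ZMod m)), (0 : ZMod m) ∉ s → s ≠ 0 → s.sum = 0 →
      ∀ c : ℕ, Multiset.card s = 2 * c → ∀ e : ℕ, 0 < e →
      ((s.map fun a => gaussSum (θ ^ a.val) ψ).prod) ^ e = ((p : ℂ) ^ c) ^ e →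
      (MutualSquares m ∨ ThreePrimes m ∨ (m ≤ 147 ∧ m ≠ 87 ∧ m ≠ 116 ∧ m ≠ 123) ∨
        Multiset.card s ≤ 6 ∨ (¬ 420 ∣ m ∧ Multiset.card s ≤ 8) ∨
        (Odd m ∧ Multiset.card s ≤ 14)) →
        Generated (l * m) (FourBase (l * m)) (s.map fun a => ((l * a.val : ℕ) : ZMod (l * m)))) ∧
    (Odd m → ∀ (p : ℕ) [Fact p.Prime], m ∣ p - 1 →
      ∀ (θ : MulChar (ZMod p) ℂ), orderOf θ = m → ∀ (ψ : AddChar (ZMod p) ℂ), ψ ≠ 1 →
      ∀ (s : Multiset (ZMod m)), (0 : ZMod m) ∉ s → s ≠ 0 → s.sum = 0 →
      ∀ c : ℕ, Multiset.card s = 2 * c → ∀ e : ℕ, 0 < e →
      ((s.map fun a => gaussSum (θ ^ a.val) ψ).prod) ^ e = ((p : ℂ) ^ c) ^ e →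
      (Multiset.card s ≤ 8 ∨
        (Multiset.card s ≤ 14 ∧ ¬ 55 ∣ m ∧ ¬ 65 ∣ m ∧ ¬ 69 ∣ m ∧ ¬ 3003 ∣ m)) →
        Generated (2 * m) (SurfaceOrCurveProduct (2 * m))
          (s.map fun a => ((2 * a.val : ℕ) : ZMod (2 * m)))) := by
  have key : ∀ (p : ℕ) [Fact p.Prime], m ∣ p - 1 →
      ∀ (θ : MulChar (ZMod p) ℂ), orderOf θ = m → ∀ (ψ : AddChar (ZMod p) ℂ), ψ ≠ 1 →
      ∀ (s : Multiset (ZMod m)), (0 : ZMod m) ∉ s → s.sum = 0 →
      ∀ c : ℕ, Multiset.card s = 2 * c → ∀ e : ℕ, 0 < e →
      ((s.map fun a => gaussSum (θ ^ a.val) ψ).prod) ^ e = ((p : ℂ) ^ c) ^ e → IsHodge m s := by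
    intro p hp hmp θ hθ ψ hψ s h0 hsum c hc e he h
    have hcard : Fintype.card (ZMod p) = p := ZMod.card p
    have hT : Pool.Agent.H916T.IsTate p m s :=
      Pool.Agent.N214.HB.isTate_of_gauss (k := ZMod p) (p := p) (by rw [hcard]; exact hmp) θ hθ ψ hψ
        s h0 hsum c hc e he (by rw [hcard]; exact h)
    have hp1 : ((p : ℕ) : ZMod m) = 1 := by
      have h3 : ((p - 1 : ℕ) : ZMod m) = 0 := (ZMod.natCast_eq_zero_iff _ _).mpr hmp
      have h4 : p = (p - 1) + 1 := (Nat.succ_pred_prime hp.out).symm
      rw [h4, Nat.cast_add, h3, zero_add, Nat.cast_one]
    refine ⟨h0, hT.2.1, hsum, ?_⟩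
    intro t
    have h5 := hT.2.2.2 t
    rw [hp1, orderOf_one, Finset.sum_range_one, one_mul] at h5
    simpa using h5
  refine ⟨?_, fun hodd p hp hmp θ hθ ψ hψ s h0 hne hsum c hc e he h hcase => ?_⟩
  swap
  · refine Pool.Agent.U270.FT14.main_published (Nat.odd_iff.mp hodd) s
      (key p hmp θ hθ ψ hψ s h0 hsum c hc e he h) ?_ hne
    rcases hcase with h' | ⟨h', h1⟩
    · exact Or.inl h'
    · exact Or.inr (Or.inr ⟨h1, h'⟩)
  by_cases hm : MutualSquares m ∨ ThreePrimes m ∨ m ≤ 86
  · obtain ⟨l, hl, _, h2⟩ := mainT m hm
    exact ⟨l, hl, fun p hp hmp θ hθ ψ hψ s h0 hne hsum c hc e he h _ =>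
      h2 s (key p hmp θ hθ ψ hψ s h0 hsum c hc e he h) hne⟩
  · have h147 : ¬ (m ≤ 147 ∧ m ≠ 87 ∧ m ≠ 116 ∧ m ≠ 123) := fun h =>
      hm (Or.inr (Or.inl (threePrimes_147 (NeZero.ne m) h.1 h.2.1 h.2.2.1 h.2.2.2)))
    obtain ⟨l, hl, h2⟩ := Pool.Agent.U270.FT14.main_all8 (NeZero.ne m)
    refine ⟨l, hl, fun p hp hmp θ hθ ψ hψ s h0 hne hsum c hc e he h hcase => ?_⟩
    refine h2 s (key p hmp θ hθ ψ hψ s h0 hsum c hc e he h) hne ?_
    rcases hcase with h' | h' | h' | h' | h'
    · exact absurd (Or.inl h') hm
    · exact absurd (Or.inr (Or.inl h')) hm
    · exact absurd h' h147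
    · exact Or.inl h'
    · exact Or.inr h'

end Pool.Agent.Results.MP_058a58_ag.FermatPolesOdd
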