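import Pool.Agent.U692.TP.Kz

/-!
# Tate's formula for the poles and the schemes with pieces of small complexity

Tate's question: for all smooth projective varieties `X` over `ℚ` and all `m` the order of the `L`-function of
`H^{2m}(X)` at `s = m + 1` is `- rank B^m(X)`. For an arbitrary separated scheme `X` of finite type over `ℚ` let

`L_m(X, s) = ∏_i L(gr^W_{2m} H^i_c(X), s)^((-1)^i)`

and let `b_m(X)` be the additive invariant of schemes with `b_m(X) = rank B^m(X)` for smooth projective `X` (it
exists by the theorem of Gillet and Soulé). `D.Tate X` is the assertion that for all integers `m` the order of
`L_m(X, s)` at `s = m + 1`, in the sense of the problem, is `- b_m(X)`; for a smooth projective variety this is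
Tate's formula. The structure `EulerData` consists of the Euler factors of the `L_m(X, s)` and the numbers
`b_m(X)`, and `IsKnown` lists the known properties which are used (exact sequences of closed subschemes, which
split on the graded pieces by the semisimplicity of the motives for absolute Hodge cycles (Deligne, Jannsen);
products with `𝔾_m`; convergence for `s > m + 1` near `m + 1`; nothing for `m < 0`). `Resolution` is the
theorem of Hironaka.

We show:

1. The formula depends only on the class in the Grothendieck group `K_0(Var_ℚ)`: it is true for `X` if and only if
   the class of `X` is in the subgroup generated by the classes of the schemes for which it is true.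
2. For every `N ≥ 0` it is true for all smooth projective varieties of dimension at most `N` if and only if it is
   true for all schemes, of any dimension, singular or open, whose classes are in the subgroup generated by the
   schemes for which it is true and by the class `Pieces N`: schemes of dimension at most `N`; affine
   schemes with an action of a diagonalizable group of complexity at most `N`; schemes given by any set of
   equations with at most two terms with coefficients in an algebra of dimension at most `N`; schemes given by
   equations over `ℚ` with `t_1, t_2, …` terms, `∑ max(t_i - 2, 0) ≤ N`; two out of three for closed-open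
   decompositions; products with `𝔾_m` and the converse. For `N = 1` the formula is known (Dedekind zeta
   functions), so the second statement is true for `N = 1`, for instance for all systems of two-term
   equations over curves, all hypersurfaces with three terms and all affine schemes with a torus action of
   complexity one. For `N = 2` it is equivalent to Tate's formula for surfaces.
3. The threshold: under the hypothesis for dimension at most `N` (no hypothesis for `N = 1`) and for every `t ≥ 0`
   the formula for all schemes given by equations with at most `t` terms and coefficients in an algebra of
   dimension at most `N`, and for all schemes given by finite systems of bilinear equations which are sums of at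
   most `t` monomials `x_i y_j`, is true for `t ≤ 2`, and is for `t ≥ 3` equivalent to Tate's question for all
   smooth projective varieties.

The stratifications are those of the library of helper738 (`U738/BN`: two terms; `U738/CX`: complexity), of
helper483 (`U483/CX`: few terms) and of the starting library (`Q282`: three terms).
-/

set_option autoImplicit false

namespace Pool.Agent.Results.MP_058a58_ag.SmallPieces

open Pool.Agent.Y116.UV Pool.Agent.U483.KM Pool.Agent.U738.BN Pool.Agent.U692.TP

theorem result (D : EulerData) (hD : IsKnown D) (hR : Resolution) :
    (∀ X : Var ℚ, D.Tate X.1 ↔ cls X ∈ generated D.Tate) ∧
    (∀ N : ℕ, (∀ X : Sch ℚ, IsProjVar N X → D.Tate X) ↔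
      ∀ X : Var ℚ, cls X ∈ generated (fun Y => D.Tate Y ∨ Pieces N Y) → D.Tate X.1) ∧
    (∀ N : ℕ, (∀ X : Sch ℚ, IsProjVar N X → D.Tate X) → ∀ t : ℕ, List.TFAE [
      ForTerms N t D.Tate,
      ForSystems ∅ t D.Tate,
      t ≤ 2 ∨ ∀ X : Sch ℚ, FT True X → D.Tate X,
      t ≤ 2 ∨ ∀ X : Sch ℚ, IsProjVar ⊤ X → D.Tate X]) :=
  ⟨tate_iff_mem hD, dim_iff_pieces hD hR, fun _ hN t => tate_dichotomy hD hR hN t⟩

end Pool.Agent.Results.MP_058a58_ag.SmallPieces
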